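import Pool.Agent.Work.MP_74f58b_al.Dense
import Pool.Agent.Work.MP_74f58b_al.RepInf

/-!
Negative answer to the question of Weyman whether a triangular algebra is representation-finite
as soon as all its quotients have the dense orbit property.

The counterexample is the quiver `1 → 2 → 3 → 4 → 5`, `6 → 3`, `1 → 5` with all paths of length
four equal to zero (there is exactly one such path).
-/

namespace Pool.Agent.Results.MP_74f58b_al.WeymanCounterexample

open Weyman

universe u

/-- Over every algebraically closed field there is a finite quiver without oriented cycles with an
admissible ideal `I` such that the quotient by `I` is representation-infinite, but the quotient by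
every two-sided ideal `J` containing `I` has the dense orbit property. -/
theorem result (K : Type u) [Field K] [IsAlgClosed K] :
    ∃ (V : Type) (_ : Finite V) (_ : Quiver.{0} V) (_ : ∀ a b : V, Finite (a ⟶ b))
      (I : PathIdeal K V), Acyclic V ∧ Admissible I ∧ ¬ RepFinite I ∧
      ∀ J : PathIdeal K V, (∀ a b : V, I.part a b ≤ J.part a b) → DenseOrbits J :=
  haveI : Infinite K := inferInstance
  ⟨Vx, finite_Vx, quiverVx, finite_arr, radPow K Vx 4, acyclic_Vx, admissible_radPow,
    not_repFinite, denseOrbits⟩

end Pool.Agent.Results.MP_74f58b_al.WeymanCounterexample
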